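import Pool.Agent.N290.RJ.Stm

/-!
# RJ/T1 (project of helper290, helper247): transfer to `Fin (d + 1) → ℂ`
-/

set_option autoImplicit false

open MeasureTheory

namespace Pool.Agent.N247.RJ

theorem T1 (d : ℕ) : Pool.Agent.N290.RJ.T1 d := by
  refine ⟨(Fin.consLinearEquiv ℂ (fun _ : Fin (d + 1) => ℂ)).toContinuousLinearEquiv, fun z => rfl,
    fun z i => rfl, ?_⟩
  have h := (volume_preserving_piFinSuccAbove (fun _ : Fin (d + 1) => ℂ) 0).symm
  convert! h using 1
  funext z
  refine funext fun i => ?_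
  refine Fin.cases ?_ (fun i => ?_) i
  · rfl
  · rfl

end Pool.Agent.N247.RJ
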